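import Pool.Agent.H.MP_2957ea_an.B

open Filter Topology Asymptotics Finset MeasureTheory Pool.Agent.H.MP_2957ea_an
open scoped InnerProductSpace Real

namespace Pool.Agent.Results.MP_2957ea_an.No

/-- the 2-step nilpotent Lie group of unipotent matrices with integer (1,2) entry -/
def G : Set (Matrix (Fin 3) (Fin 3) ℝ) :=
  {M | ∃ (x : ℤ) (y z : ℝ), M = !![1, (x : ℝ), z; 0, 1, y; 0, 0, 1]}

/-- its cocompact lattice of integer points -/
def Γ : Set (Matrix (Fin 3) (Fin 3) ℝ) :=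
  {M | ∃ x y z : ℤ, M = !![1, (x : ℝ), (z : ℝ); 0, 1, (y : ℝ); 0, 0, 1]}

lemma Z_tend {E : Type*} [NormedAddCommGroup E] [NormedSpace ℂ E] {v : ℕ → E} {L : E} :
    (Z fun n => v n - L) ↔ Tendsto (fun N : ℕ => (N : ℂ)⁻¹ • ∑ n ∈ range N, v n) atTop (𝓝 L) := by
  rw [Z, ← isLittleO_norm_left, isLittleO_iff_tendsto' (by
    filter_upwards [eventually_gt_atTop 0] with N hN h using absurd h (by positivity)),
    tendsto_iff_norm_sub_tendsto_zero (b := L)]
  refine tendsto_congr' ?_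
  filter_upwards [eventually_gt_atTop 0] with N hN
  have : (N : ℂ) ≠ 0 := by exact_mod_cast hN.ne'
  rw [sum_sub_distrib, sum_const, card_range, ← inv_smul_smul₀ this L, ← smul_sub, norm_smul,
    inv_smul_smul₀ this, Nat.cast_smul_eq_nsmul, norm_inv, Complex.norm_natCast, div_eq_inv_mul]

lemma bpow (n : ℕ) : (!![1, 1, √2; 0, 1, 2 * √2; 0, 0, 1] : Matrix (Fin 3) (Fin 3) ℝ) ^ n =
    !![1, (n : ℝ), n ^ 2 * √2; 0, 1, 2 * n * √2; 0, 0, 1] := by
  induction n with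
  | zero => simp [Matrix.one_fin_three]
  | succ n ih =>
    rw [pow_succ, ih, Matrix.mul_fin_three]
    ext i j
    fin_cases i <;> fin_cases j <;> simp <;> ring

theorem result : ∃ a : Fin 2 → ℕ → ℤ,
    (∀ (X : Type) [MeasurableSpace X] (μ : Measure X) [IsProbabilityMeasure μ]
      (T : Fin 2 → Equiv.Perm X), (∀ i, MeasurePreserving (T i) μ μ) →
      (∀ i, MeasurePreserving (T i).symm μ μ) → Commute (T 0) (T 1) →
      ∀ f : Fin 2 → X → ℂ, (∀ i, MemLp (f i) ⊤ μ) → ∃ g : X → ℂ, MemLp g 2 μ ∧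
        Tendsto (fun N : ℕ => eLpNorm (fun x =>
          (N : ℂ)⁻¹ * ∑ n ∈ range N, ∏ i, f i ((T i ^ a i n) x) - g x) 2 μ) atTop (𝓝 0)) ∧
    ∃ b : Fin 2 → Matrix (Fin 3) (Fin 3) ℝ, (∀ i, b i ∈ G) ∧
      ∃ F : Matrix (Fin 3) (Fin 3) ℝ → ℂ, Continuous F ∧ (∀ g ∈ G, ∀ γ ∈ Γ, F (g * γ) = F g) ∧
        ¬∃ L, Tendsto (fun N : ℕ => (N : ℂ)⁻¹ * ∑ n ∈ range N, F (b 0 ^ a 0 n * b 1 ^ a 1 n))
          atTop (𝓝 L) := by
  refine ⟨![fun n => a n, 0], fun X _ μ _ T hT _ _ f hf => ?_,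
    ![!![1, 1, √2; 0, 1, 2 * √2; 0, 0, 1], 1], fun i => ?_,
    fun M => fourier 1 ((M 0 2 : ℝ) : UnitAddCircle), by fun_prop, ?_, ?_⟩
  · have h2 : MemLp (f 0) 2 μ := (hf 0).mono_exponent le_top
    let U := Lp.compMeasurePreservingₗᵢ (E := ℂ) (p := 2) ℂ (T 0) (hT 0)
    have hU : ∀ m h h', ⟪U^[m + h] h2.toLp, U^[m + h'] h2.toLp⟫_ℂ =
        ⟪U^[h] h2.toLp, U^[h'] h2.toLp⟫_ℂ := by
      intro m h h'
      induction m with
      | zero => simp
      | succ m ih =>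
        rw [add_right_comm m 1 h, add_right_comm m 1 h', Function.iterate_succ_apply',
          Function.iterate_succ_apply', U.inner_map_map, ih]
    have hC : ∀ m, ‖U^[m] h2.toLp‖ ≤ ‖h2.toLp‖ := fun m => by
      induction m with
      | zero => simp
      | succ m ih => rwa [Function.iterate_succ_apply', U.norm_map]
    obtain ⟨L, hL⟩ : ∃ L, Tendsto (fun N : ℕ => (N : ℂ)⁻¹ • ∑ n ∈ range N, U^[n] h2.toLp) atTop
        (𝓝 L) := ⟨_, U.toContinuousLinearMap.tendsto_birkhoffAverage_orthogonalProjection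
          U.norm_toContinuousLinearMap_le h2.toLp⟩
    have h3 := (Lp.tendsto_Lp_iff_tendsto_eLpNorm' _ _).1 (Z_tend.1 (Za hC hU (Z_tend.2 hL)))
    have hc : ∀ m, U^[m] h2.toLp =ᵐ[μ] fun x => f 0 ((T 0)^[m] x) := fun m => by
      have := Lp.compMeasurePreserving_iterate (E := ℂ) (p := 2) (hT 0) m
      rw [show U^[m] h2.toLp = _ from congrFun this _]
      exact (Lp.coeFn_compMeasurePreserving _ _).trans
        (((hT 0).iterate m).quasiMeasurePreserving.ae_eq_comp h2.coeFn_toLp)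
    refine ⟨fun x => f 1 x * L x, (Lp.memLp L).mul (hf 1), ?_⟩
    have h4 := ENNReal.Tendsto.const_mul (a := eLpNorm (f 1) ⊤ μ) h3 (.inr (hf 1).2.ne)
    rw [mul_zero] at h4
    refine tendsto_of_tendsto_of_tendsto_of_le_of_le tendsto_const_nhds h4 (fun _ => zero_le)
      fun N => le_trans (eLpNorm_congr_ae ?_).le (eLpNorm_smul_le_eLpNorm_top_mul_eLpNorm 2
        ((Lp.aestronglyMeasurable _).sub (Lp.aestronglyMeasurable _)) _)
    filter_upwards [Lp.coeFn_smul (N : ℂ)⁻¹ (∑ n ∈ range N, U^[a n] h2.toLp),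
      Lp.coeFn_finsetSum (range N) fun n => U^[a n] h2.toLp, ae_all_iff.2 hc] with x e1 e2 e3
    simp only [Pi.smul_apply', Pi.sub_apply, e1, Pi.smul_apply, e2, Finset.sum_apply, e3]
    simp [Fin.prod_univ_two, ← sum_mul, Equiv.Perm.iterate_eq_pow]
    ring
  · fin_cases i
    · exact ⟨1, 2 * √2, √2, by simp⟩
    · exact ⟨0, 0, 0, by simp [Matrix.one_fin_three]⟩
  · rintro _ ⟨x, y, z, rfl⟩ _ ⟨x', y', z', rfl⟩
    refine congrArg (fourier 1) ?_
    rw [← sub_eq_zero, ← AddCircle.coe_sub, AddCircle.coe_eq_zero_iff]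
    exact ⟨z' + x * y', by simp; ring⟩
  · rintro ⟨L, hL⟩
    refine diverge L (Z_tend.2 ?_)
    simpa [bpow, q] using hL

end Pool.Agent.Results.MP_2957ea_an.No
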